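import Pool.Agent.H28RB.Base
set_option autoImplicit false

/-! Rota-Baxter operators of weight zero on unital commutative algebras of degree three. -/

namespace Pool.Agent.H28RB

/-- Data of a commutative algebra with unit `e` and a linear form `T` satisfying the linearised generic
equation of degree three. -/
structure Deg3 (F : Type*) [Field F] {A : Type*} [NonUnitalNonAssocRing A] [Module F A]
    (e : A) (T : A →ₗ[F] F) : Prop where
  comm : ∀ x y : A, x * y = y * x
  one : ∀ x : A, e * x = x
  tone : T e = 3
  cubic : ∀ a x : A, (a * a) * x + (2 : F) • (a * (a * x)) =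
    T x • (a * a) + (2 * T a) • (a * x) - (T a * T x - T (a * x)) • a
      - ((T a ^ 2 - T (a * a)) / 2) • x
      + (T ((a * a) * x) - T a * T (a * x) + ((T a ^ 2 - T (a * a)) / 2) * T x) • e

variable {F : Type*} [Field F] [Good F] {A : Type*} [NonUnitalNonAssocRing A] [Module F A]
  [IsScalarTower F A A] [SMulCommClass F A A] {e : A} {T : A →ₗ[F] F}

/-- Rota-Baxter operators of weight zero -/
def IsRB (R : A →ₗ[F] A) : Prop := ∀ x y : A, R x * R y = R (R x * y + x * R y)

omit [Good F] [IsScalarTower F A A] [SMulCommClass F A A] in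
theorem smul_cancel {c : F} (hc : c ≠ 0) {x : A} (h : c • x = 0) : x = 0 :=
  (smul_eq_zero.mp h).resolve_left hc

omit [IsScalarTower F A A] in
/-- elements of cube zero have trace and quadratic trace zero -/
theorem Deg3.nil (hA : Deg3 F e T) {a : A} (h3 : a * (a * a) = 0) : T a = 0 ∧ T (a * a) = 0 := by
  have hc := hA.cubic a a
  have h3' : (a * a) * a = 0 := by rw [hA.comm]; exact h3
  rw [h3, h3', smul_zero, add_zero, map_zero] at hc
  set t := T a with ht
  set s := T (a * a) with hs
  set S := (t ^ 2 - s) / 2 with hS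
  -- 0 = 3 t a² - (t² - s) a - S a + (- t s + S t) e
  have hs' : s = t ^ 2 - 2 * S := by rw [hS]; (first | ring1 | (field_simp [nz2, nz3, nz4, nz6, nz8, nz9, nz12]; ring1) | (field_simp [nz2, nz3, nz4, nz6, nz8, nz9, nz12]; done))
  have h0 : (3 * t) • (a * a) - (3 * S) • a + (-(t * s) + S * t) • e = 0 := by
    have e1 : t • (a * a) + (2 * t) • (a * a) - (t * t - s) • a - S • a + (0 - t * s + S * t) • e = 0 :=
      hc.symm
    have e2 : t * t - s = 2 * S := by rw [hs']; (first | ring1 | (field_simp [nz2, nz3, nz4, nz6, nz8, nz9, nz12]; ring1) | (field_simp [nz2, nz3, nz4, nz6, nz8, nz9, nz12]; done))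
    rw [e2] at e1
    linear_combination (norm := (match_scalars <;> (first | ring1 | (field_simp [nz2, nz3, nz4, nz6, nz8, nz9, nz12]; ring1) | (field_simp [nz2, nz3, nz4, nz6, nz8, nz9, nz12]; done)))) e1
  have hmul : ∀ x : A, a * x = 0 → True := fun _ _ => trivial
  -- multiply by a
  have h1 : -(3 * S) • (a * a) + (-(t * s) + S * t) • a = 0 := by
    have := congrArg (fun z => a * z) h0
    simp only [mul_add, mul_sub, mul_smul_comm, mul_zero, h3, hA.comm a e, hA.one] at this
    linear_combination (norm := (match_scalars <;> (first | ring1 | (field_simp [nz2, nz3, nz4, nz6, nz8, nz9, nz12]; ring1) | (field_simp [nz2, nz3, nz4, nz6, nz8, nz9, nz12]; done)))) this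
  have h2 : (-(t * s) + S * t) • (a * a) = 0 := by
    have := congrArg (fun z => a * z) h1
    simp only [mul_add, mul_smul_comm, mul_zero, h3] at this
    linear_combination (norm := (match_scalars <;> (first | ring1 | (field_simp [nz2, nz3, nz4, nz6, nz8, nz9, nz12]; ring1) | (field_simp [nz2, nz3, nz4, nz6, nz8, nz9, nz12]; done)))) this
  have he : a = 0 → t = 0 ∧ s = 0 := by
    intro h
    rw [ht, hs, h]; simp
  by_cases ha : a = 0
  · exact he ha
  have hN : -(t * s) + S * t = 0 := by
    by_contra hN
    have hq := smul_cancel hN h2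
    rw [hq, smul_zero, zero_add] at h1
    exact ha (smul_cancel hN h1)
  rw [hN, zero_smul, add_zero] at h1 h0
  have hSz : S = 0 := by
    by_contra hSn
    have hq := smul_cancel (c := -(3 * S)) (by simpa [nz3] using hSn) h1
    rw [hq, smul_zero, zero_sub, neg_eq_zero] at h0
    exact ha (smul_cancel (c := 3 * S) (by simpa [nz3] using hSn) h0)
  rw [hSz] at h0 hs'
  have htz : t = 0 := by
    by_contra htn
    have h0' : (3 * t) • (a * a) = 0 := by
      linear_combination (norm := (match_scalars <;> (first | ring1 | (field_simp [nz2, nz3, nz4, nz6, nz8, nz9, nz12]; ring1) | (field_simp [nz2, nz3, nz4, nz6, nz8, nz9, nz12]; done)))) h0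
    have hq := smul_cancel (c := 3 * t) (by simpa [nz3] using htn) h0'
    have : s = 0 := by rw [hs, hq, map_zero]
    rw [this] at hs'
    have h5 : t ^ 2 = 0 := by linear_combination (norm := (first | ring1 | (field_simp [nz2, nz3, nz4, nz6, nz8, nz9, nz12]; ring1) | (field_simp [nz2, nz3, nz4, nz6, nz8, nz9, nz12]; done))) -hs'
    exact htn (by simpa using h5)
  refine ⟨htz, ?_⟩
  rw [hs', htz]; (first | ring1 | (field_simp [nz2, nz3, nz4, nz6, nz8, nz9, nz12]; ring1) | (field_simp [nz2, nz3, nz4, nz6, nz8, nz9, nz12]; done))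

omit [IsScalarTower F A A] in
/-- a vector of trace zero cannot be an eigenvector of a nilpotent element for a nonzero eigenvalue -/
theorem Deg3.eigen (hA : Deg3 F e T) {b v : A} {c : F} (h3 : b * (b * b) = 0)
    (hv : b * v = c • v) (hT : T v = 0) (hne : v ≠ 0) : c = 0 := by
  have step : ∀ (b : A) (c : F), b * (b * b) = 0 → b * v = c • v →
      (b * b) * v = (-(2 * c ^ 2)) • v := by
    intro b c h3 hv
    obtain ⟨t1, t2⟩ := hA.nil h3
    have h := hA.cubic b v
    rw [t1, t2, hv, hT, mul_smul_comm, hv, map_smul, hT] at h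
    have h' : (b * b) * v = (-(2 * c ^ 2)) • v + T ((b * b) * v) • e := by
      linear_combination (norm := (match_scalars <;> (first | ring1 | (field_simp [nz2, nz3, nz4, nz6, nz8, nz9, nz12]; ring1) | (field_simp [nz2, nz3, nz4, nz6, nz8, nz9, nz12]; done)))) h
    have h4 : T ((b * b) * v) = 3 * T ((b * b) * v) := by
      have := congrArg T h'
      rw [map_add, map_smul, map_smul, hT, hA.tone] at this
      rw [smul_eq_mul, smul_eq_mul] at this
      linear_combination (norm := (first | ring1 | (field_simp [nz2, nz3, nz4, nz6, nz8, nz9, nz12]; ring1) | (field_simp [nz2, nz3, nz4, nz6, nz8, nz9, nz12]; done))) this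
    have h5 : T ((b * b) * v) = 0 := by linear_combination (norm := (first | ring1 | (field_simp [nz2, nz3, nz4, nz6, nz8, nz9, nz12]; ring1) | (field_simp [nz2, nz3, nz4, nz6, nz8, nz9, nz12]; done))) (-1 / 2) * h4
    rw [h5, zero_smul, add_zero] at h'
    exact h'
  have h1 := step b c h3 hv
  obtain ⟨t1, t2⟩ := hA.nil h3
  -- the square of b*b is zero
  have hss : (b * b) * (b * b) = 0 := by
    have h := hA.cubic b (b * b)
    rw [t1, t2, h3] at h
    have h' : (b * b) * (b * b) = T ((b * b) * (b * b)) • e := by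
      rw [mul_zero, smul_zero, map_zero] at h
      linear_combination (norm := (match_scalars <;> (first | ring1 | (field_simp [nz2, nz3, nz4, nz6, nz8, nz9, nz12]; ring1) | (field_simp [nz2, nz3, nz4, nz6, nz8, nz9, nz12]; done)))) h
    have h4 : T ((b * b) * (b * b)) = 3 * T ((b * b) * (b * b)) := by
      have := congrArg T h'
      rw [map_smul, hA.tone, smul_eq_mul] at this
      linear_combination (norm := (first | ring1 | (field_simp [nz2, nz3, nz4, nz6, nz8, nz9, nz12]; ring1) | (field_simp [nz2, nz3, nz4, nz6, nz8, nz9, nz12]; done))) this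
    have h5 : T ((b * b) * (b * b)) = 0 := by linear_combination (norm := (first | ring1 | (field_simp [nz2, nz3, nz4, nz6, nz8, nz9, nz12]; ring1) | (field_simp [nz2, nz3, nz4, nz6, nz8, nz9, nz12]; done))) (-1 / 2) * h4
    rw [h5, zero_smul] at h'
    exact h'
  have h2 := step (b * b) (-(2 * c ^ 2)) (by rw [hss, mul_zero]) h1
  rw [hss, zero_mul] at h2
  have h6 := (smul_eq_zero.mp h2.symm).resolve_right hne
  have h7 : c ^ 4 = 0 := by linear_combination (norm := (first | ring1 | (field_simp [nz2, nz3, nz4, nz6, nz8, nz9, nz12]; ring1) | (field_simp [nz2, nz3, nz4, nz6, nz8, nz9, nz12]; done))) (-1 / 8) * h6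
  simpa using h7

end Pool.Agent.H28RB
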