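import Pool.Agent.H28RB.Abs
set_option autoImplicit false

/-! The fifth power of a Rota-Baxter operator of weight zero vanishes on algebras of degree three. -/

namespace Pool.Agent.H28RB

variable {F : Type*} [Field F] [Good F] {A : Type*} [NonUnitalNonAssocRing A] [Module F A]
  [IsScalarTower F A A] [SMulCommClass F A A] {e : A} {T : A →ₗ[F] F} {R : A →ₗ[F] A}

omit [Good F] [IsScalarTower F A A] [SMulCommClass F A A] in
theorem IsRB.h1 (hA : Deg3 F e T) (hR : IsRB R) (x : A) :
    R e * R x = R (R e * x) + R (R x) := by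
  rw [hR e x, hA.one, map_add]

omit [IsScalarTower F A A] in
theorem IsRB.Ra (hA : Deg3 F e T) (hR : IsRB R) : R (R e) = (1 / 2 : F) • (R e * R e) := by
  have h := hR.h1 hA e
  rw [hA.comm (R e) e, hA.one] at h
  rw [h]; (match_scalars <;> (first | ring1 | (field_simp [nz2, nz3, nz4, nz6, nz8, nz9, nz12]; ring1) | (field_simp [nz2, nz3, nz4, nz6, nz8, nz9, nz12]; done)))

omit [IsScalarTower F A A] in
theorem IsRB.Rq (hA : Deg3 F e T) (hR : IsRB R) :
    R (R e * R e) = (1 / 3 : F) • (R e * (R e * R e)) := by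
  have h := hR.h1 hA (R e)
  rw [hR.Ra hA, map_smul, mul_smul_comm] at h
  linear_combination (norm := (match_scalars <;> (first | ring1 | (field_simp [nz2, nz3, nz4, nz6, nz8, nz9, nz12]; ring1) | (field_simp [nz2, nz3, nz4, nz6, nz8, nz9, nz12]; done)))) (-(2 : F) / 3) • h

omit [IsScalarTower F A A] in
theorem IsRB.R3 (hA : Deg3 F e T) (hR : IsRB R) :
    R (R e * (R e * R e)) = (1 / 4 : F) • (R e * (R e * (R e * R e))) := by
  have h := hR.h1 hA (R e * R e)
  rw [hR.Rq hA, map_smul, mul_smul_comm] at h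
  linear_combination (norm := (match_scalars <;> (first | ring1 | (field_simp [nz2, nz3, nz4, nz6, nz8, nz9, nz12]; ring1) | (field_simp [nz2, nz3, nz4, nz6, nz8, nz9, nz12]; done)))) (-(3 : F) / 4) • h

omit [IsScalarTower F A A] in
/-- `R e` has cube zero -/
theorem IsRB.cube (hA : Deg3 F e T) (hR : IsRB R) : R e * (R e * R e) = 0 := by
  have hc := hA.cubic (R e) (R e)
  rw [hA.comm (R e * R e) (R e)] at hc
  have e1 := hR.Ra hA
  have e2 := hR.Rq hA
  have e3 := hR.R3 hA
  set a := R e with ha
  set t := T a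
  set s := T (a * a)
  set u := T (a * (a * a))
  set S := (t ^ 2 - s) / 2 with hS
  set N := (u - t * s + S * t) / 3 with hN
  have hs' : s = t ^ 2 - 2 * S := by rw [hS]; (first | ring1 | (field_simp [nz2, nz3, nz4, nz6, nz8, nz9, nz12]; ring1) | (field_simp [nz2, nz3, nz4, nz6, nz8, nz9, nz12]; done))
  have e0 : a * (a * a) = t • (a * a) - S • a + N • e := by
    rw [hN]
    have e2 : t * t - s = 2 * S := by rw [hs']; (first | ring1 | (field_simp [nz2, nz3, nz4, nz6, nz8, nz9, nz12]; ring1) | (field_simp [nz2, nz3, nz4, nz6, nz8, nz9, nz12]; done))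
    rw [e2] at hc
    linear_combination (norm := (match_scalars <;> (first | ring1 | (field_simp [nz2, nz3, nz4, nz6, nz8, nz9, nz12]; ring1) | (field_simp [nz2, nz3, nz4, nz6, nz8, nz9, nz12]; done)))) (1 / 3 : F) • hc
  have e4 : a * (a * (a * a)) = t • (a * (a * a)) - S • (a * a) + N • a := by
    have := congrArg (fun z => a * z) e0
    simp only [mul_add, mul_sub, mul_smul_comm, hA.comm a e, hA.one] at this
    exact this
  have e5 : R (a * (a * a)) = (t / 3) • (a * (a * a)) - (S / 2) • (a * a) + N • a := by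
    have := congrArg R e0
    rw [map_add, map_sub, map_smul, map_smul, map_smul, e2, e1, ← ha] at this
    rw [this]; (match_scalars <;> (first | ring1 | (field_simp [nz2, nz3, nz4, nz6, nz8, nz9, nz12]; ring1) | (field_simp [nz2, nz3, nz4, nz6, nz8, nz9, nz12]; done)))
  have e6 : t • (a * (a * a)) - (3 * S) • (a * a) + (9 * N) • a = 0 := by
    rw [e5, e4] at e3
    linear_combination (norm := (match_scalars <;> (first | ring1 | (field_simp [nz2, nz3, nz4, nz6, nz8, nz9, nz12]; ring1) | (field_simp [nz2, nz3, nz4, nz6, nz8, nz9, nz12]; done)))) (12 : F) • e3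
  have e7 : S • (a * (a * a)) - (9 * N) • (a * a) = 0 := by
    have f1 := congrArg R e6
    rw [map_add, map_sub, map_smul, map_smul, map_smul, map_zero, e1, e2, e3] at f1
    have f2 := congrArg (fun z => a * z) e6
    simp only [mul_add, mul_sub, mul_smul_comm, mul_zero] at f2
    linear_combination (norm := (match_scalars <;> (first | ring1 | (field_simp [nz2, nz3, nz4, nz6, nz8, nz9, nz12]; ring1) | (field_simp [nz2, nz3, nz4, nz6, nz8, nz9, nz12]; done)))) f2 - (4 : F) • f1
  have e8 : N • (a * (a * a)) = 0 := by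
    have f1 := congrArg R e7
    rw [map_sub, map_smul, map_smul, map_zero, e2, e3] at f1
    have f2 := congrArg (fun z => a * z) e7
    simp only [mul_sub, mul_smul_comm, mul_zero] at f2
    linear_combination (norm := (match_scalars <;> (first | ring1 | (field_simp [nz2, nz3, nz4, nz6, nz8, nz9, nz12]; ring1) | (field_simp [nz2, nz3, nz4, nz6, nz8, nz9, nz12]; done)))) (1 / 3 : F) • f2 - (4 / 3 : F) • f1
  by_contra h3
  have hN0 : N = 0 := (smul_eq_zero.mp e8).resolve_right h3
  rw [hN0, mul_zero, zero_smul, sub_zero] at e7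
  have hS0 : S = 0 := (smul_eq_zero.mp e7).resolve_right h3
  rw [hN0, hS0] at e6
  have e6' : t • (a * (a * a)) = 0 := by
    linear_combination (norm := (match_scalars <;> (first | ring1 | (field_simp [nz2, nz3, nz4, nz6, nz8, nz9, nz12]; ring1) | (field_simp [nz2, nz3, nz4, nz6, nz8, nz9, nz12]; done)))) e6
  have ht0 : t = 0 := (smul_eq_zero.mp e6').resolve_right h3
  rw [hN0, hS0, ht0] at e0
  apply h3
  rw [e0]; (match_scalars <;> (first | ring1 | (field_simp [nz2, nz3, nz4, nz6, nz8, nz9, nz12]; ring1) | (field_simp [nz2, nz3, nz4, nz6, nz8, nz9, nz12]; done)))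

/-- **The fifth power of a Rota-Baxter operator of weight zero is zero.** -/
theorem IsRB.pow_five (hA : Deg3 F e T) (hR : IsRB R) (x : A) : R (R (R (R (R x)))) = 0 := by
  have h1 : ∀ x, R e * R x = R (R e * x) + R (R x) := hR.h1 hA
  have hcube := hR.cube hA
  have hRa := hR.Ra hA
  have hRq : R (R e * R e) = 0 := by rw [hR.Rq hA, hcube, smul_zero]
  obtain ⟨t1, t2⟩ := hA.nil hcube
  have h2 : ∀ x, (R e * R e) * R x = R ((R e * R e) * x) + (2 : F) • R (R e * R x) := by
    intro x
    have h := hR (R e) x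
    rw [hRa, map_add, smul_mul_assoc, smul_mul_assoc, map_smul] at h
    linear_combination (norm := (match_scalars <;> (first | ring1 | (field_simp [nz2, nz3, nz4, nz6, nz8, nz9, nz12]; ring1) | (field_simp [nz2, nz3, nz4, nz6, nz8, nz9, nz12]; done)))) (2 : F) • h
  have h3 : ∀ x, R ((R e * R e) * R x) = 0 := by
    intro x
    have h := hR (R e * R e) x
    rw [hRq, zero_mul, zero_mul, zero_add] at h
    exact h.symm
  have hc := fun x => hA.cubic (R e) x
  have comm := hA.comm
  have tone := hA.tone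
  set a := R e with ha
  set q := a * a with hq
  have Rla : ∀ x, R (a * x) = a * R x - R (R x) := fun x => by rw [h1]; abel
  have h4 : ∀ x, q * R (R x) = (2 : F) • (a * R (R (R x))) - (2 : F) • R (R (R (R x))) := by
    intro x
    rw [h2, h3, Rla]; (match_scalars <;> (first | ring1 | (field_simp [nz2, nz3, nz4, nz6, nz8, nz9, nz12]; ring1) | (field_simp [nz2, nz3, nz4, nz6, nz8, nz9, nz12]; done)))
  have h5 : ∀ x, a * R (R (R (R x))) = (2 : F) • R (R (R (R (R x)))) := by
    intro x
    have f1 := h3 (R x)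
    rw [h4, map_sub, map_smul, map_smul, Rla] at f1
    linear_combination (norm := (match_scalars <;> (first | ring1 | (field_simp [nz2, nz3, nz4, nz6, nz8, nz9, nz12]; ring1) | (field_simp [nz2, nz3, nz4, nz6, nz8, nz9, nz12]; done)))) (1 / 2 : F) • f1
  have h6 : ∀ x, R (R (R (R (R (R x))))) = 0 := by
    intro x
    have f1 := h5 (a * x)
    simp only [Rla, map_sub, mul_sub] at f1
    have f2 := h5 x
    have f3 := h5 (R x)
    have f4 := congrArg (fun z => a * z) f2
    simp only [mul_smul_comm] at f4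
    rw [f4] at f1
    rw [f3] at f1
    linear_combination (norm := (match_scalars <;> (first | ring1 | (field_simp [nz2, nz3, nz4, nz6, nz8, nz9, nz12]; ring1) | (field_simp [nz2, nz3, nz4, nz6, nz8, nz9, nz12]; done)))) (1 / 2 : F) • f1
  -- the case of square zero
  by_cases hq0 : q = 0
  · have f1 := h4 (R x)
    rw [hq0, zero_mul, h5] at f1
    linear_combination (norm := (match_scalars <;> (first | ring1 | (field_simp [nz2, nz3, nz4, nz6, nz8, nz9, nz12]; ring1) | (field_simp [nz2, nz3, nz4, nz6, nz8, nz9, nz12]; done)))) (-1 / 2 : F) • f1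
  have haq : a * q = 0 := hcube
  have star : ∀ x, q * x + (2 : F) • (a * (a * x)) = T x • q + T (a * x) • a + T (q * x) • e := by
    intro x
    have h := hc x
    rw [t1, t2] at h
    linear_combination (norm := (match_scalars <;> (first | ring1 | (field_simp [nz2, nz3, nz4, nz6, nz8, nz9, nz12]; ring1) | (field_simp [nz2, nz3, nz4, nz6, nz8, nz9, nz12]; done)))) h
  have star2 : ∀ x, (6 : F) • (a * R (R x)) - (6 : F) • R (R (R x)) =
      (T (R x) - T (a * x) / 2) • q + (T (a * R x) - T (q * x)) • a + T (q * R x) • e := by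
    intro x
    have f1 := star (R x)
    have f2 := congrArg R (star x)
    have f3 : R (q * x) = q * R x - (2 : F) • (a * R (R x)) + (2 : F) • R (R (R x)) := by
      have := h2 x
      rw [Rla] at this
      linear_combination (norm := (match_scalars <;> (first | ring1 | (field_simp [nz2, nz3, nz4, nz6, nz8, nz9, nz12]; ring1) | (field_simp [nz2, nz3, nz4, nz6, nz8, nz9, nz12]; done)))) -this
    rw [map_add, map_add, map_add, map_smul, map_smul, map_smul, map_smul, f3, hRq, hRa] at f2
    simp only [Rla, map_sub, mul_sub] at f2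
    linear_combination (norm := (match_scalars <;> (first | ring1 | (field_simp [nz2, nz3, nz4, nz6, nz8, nz9, nz12]; ring1) | (field_simp [nz2, nz3, nz4, nz6, nz8, nz9, nz12]; done)))) f1 - f2
  have k1 : ∀ x, T (q * R (R x)) = 0 ∧ T (a * R (R x)) = T (q * R x) := by
    intro x
    have f1 := congrArg R (star2 (R x))
    rw [map_sub, map_smul, map_smul, Rla, h5, map_add, map_add, map_smul, map_smul, map_smul, hRq,
      hRa, ← ha] at f1
    have f2 : ((T (a * R (R x)) - T (q * R x)) / 2) • q + T (q * R (R x)) • a = 0 := by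
      linear_combination (norm := (match_scalars <;> (first | ring1 | (field_simp [nz2, nz3, nz4, nz6, nz8, nz9, nz12]; ring1) | (field_simp [nz2, nz3, nz4, nz6, nz8, nz9, nz12]; done)))) -f1
    have f3 := congrArg (fun z => a * z) f2
    simp only [mul_add, mul_smul_comm, haq, mul_zero, smul_zero, zero_add] at f3
    have f4 : T (q * R (R x)) = 0 := (smul_eq_zero.mp f3).resolve_right hq0
    rw [f4, zero_smul, add_zero] at f2
    have f5 := (smul_eq_zero.mp f2).resolve_right hq0
    exact ⟨f4, by linear_combination (norm := (first | ring1 | (field_simp [nz2, nz3, nz4, nz6, nz8, nz9, nz12]; ring1) | (field_simp [nz2, nz3, nz4, nz6, nz8, nz9, nz12]; done))) 2 * f5⟩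
  -- R^5 x is a multiple of q
  have k2 : ∀ x, R (R (R (R (R x)))) = (-(T (q * R x)) / 12) • q := by
    intro x
    have f1 := congrArg (fun z => R (R z)) (star2 x)
    simp only [map_sub, map_add, map_smul, hRq, hRa, map_zero, smul_zero, zero_add, add_zero, Rla,
      ← ha, h5] at f1
    linear_combination (norm := (match_scalars <;> (first | ring1 | (field_simp [nz2, nz3, nz4, nz6, nz8, nz9, nz12]; ring1) | (field_simp [nz2, nz3, nz4, nz6, nz8, nz9, nz12]; done)))) (-1 / 6 : F) • f1
  have k3 : ∀ x, T (R (R (R x))) = 0 := by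
    intro x
    have f1 := star2 (R (R x))
    rw [h5, (k1 (R x)).1, (k1 (R x)).2, (k1 x).1, (k1 x).2, k2 x] at f1
    have f2 : T (R (R (R x))) • q = 0 := by
      linear_combination (norm := (match_scalars <;> (first | ring1 | (field_simp [nz2, nz3, nz4, nz6, nz8, nz9, nz12]; ring1) | (field_simp [nz2, nz3, nz4, nz6, nz8, nz9, nz12]; done)))) -f1
    exact (smul_eq_zero.mp f2).resolve_right hq0
  have p1 : ∀ u v, ∃ w, R u * R v = R w := fun u v => ⟨_, hR u v⟩
  have p2 : ∀ u v, ∃ w, R (R u) * R (R v) = R (R w) := by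
    intro u v
    obtain ⟨w1, e1⟩ := p1 (R u) v
    obtain ⟨w2, e2⟩ := p1 u (R v)
    exact ⟨w1 + w2, by rw [hR (R u) (R v), e1, e2, map_add, map_add, map_add]⟩
  have p3 : ∀ u v, ∃ w, R (R (R u)) * R (R (R v)) = R (R (R w)) := by
    intro u v
    obtain ⟨w1, e1⟩ := p2 (R u) v
    obtain ⟨w2, e2⟩ := p2 u (R v)
    exact ⟨w1 + w2, by rw [hR (R (R u)) (R (R v)), e1, e2]; simp only [map_add]⟩
  set b := R (R (R x)) with hb
  have tb : T b = 0 := k3 x
  obtain ⟨w, hw⟩ := p3 x x
  have tbb : T (b * b) = 0 := by rw [hb, hw]; exact k3 w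
  obtain ⟨w', hw'⟩ := p3 x w
  have tbbb : T (b * (b * b)) = 0 := by rw [hb, hw, hw']; exact k3 w'
  have b3 : b * (b * b) = 0 := by
    have h := hA.cubic b b
    rw [comm (b * b) b, tb, tbb, tbbb] at h
    linear_combination (norm := (match_scalars <;> (first | ring1 | (field_simp [nz2, nz3, nz4, nz6, nz8, nz9, nz12]; ring1) | (field_simp [nz2, nz3, nz4, nz6, nz8, nz9, nz12]; done)))) (1 / 3 : F) • h
  have hbq : b * q = (-(T (q * R x)) / 6) • q := by
    rw [comm b q, hb, h4 (R x), h5, k2]; (match_scalars <;> (first | ring1 | (field_simp [nz2, nz3, nz4, nz6, nz8, nz9, nz12]; ring1) | (field_simp [nz2, nz3, nz4, nz6, nz8, nz9, nz12]; done)))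
  have hz := hA.eigen b3 hbq t2 hq0
  rw [k2 x]
  have : -(T (q * R x)) / 12 = 0 := by linear_combination (norm := (first | ring1 | (field_simp [nz2, nz3, nz4, nz6, nz8, nz9, nz12]; ring1) | (field_simp [nz2, nz3, nz4, nz6, nz8, nz9, nz12]; done))) (1 / 2) * hz
  rw [this, zero_smul]

end Pool.Agent.H28RB
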