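import Mathlib
set_option autoImplicit false

/-! Fields in which two and three are invertible, and the small numbers that are then not zero. -/

namespace Pool.Agent.H28RB

/-- two and three are not zero -/
class Good (F : Type*) [Field F] : Prop where
  two : (2 : F) ≠ 0
  three : (3 : F) ≠ 0

variable {F : Type*} [Field F] [Good F]

theorem nz2 : (2 : F) ≠ 0 := Good.two
theorem nz3 : (3 : F) ≠ 0 := Good.three
theorem nz4 : (4 : F) ≠ 0 := by
  have : (4 : F) = 2 * 2 := by norm_num
  rw [this]; exact mul_ne_zero nz2 nz2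
theorem nz6 : (6 : F) ≠ 0 := by
  have : (6 : F) = 2 * 3 := by norm_num
  rw [this]; exact mul_ne_zero nz2 nz3
theorem nz8 : (8 : F) ≠ 0 := by
  have : (8 : F) = 2 * 4 := by norm_num
  rw [this]; exact mul_ne_zero nz2 nz4
theorem nz9 : (9 : F) ≠ 0 := by
  have : (9 : F) = 3 * 3 := by norm_num
  rw [this]; exact mul_ne_zero nz3 nz3
theorem nz12 : (12 : F) ≠ 0 := by
  have : (12 : F) = 2 * 6 := by norm_num
  rw [this]; exact mul_ne_zero nz2 nz6

end Pool.Agent.H28RB
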