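import Pool.Agent.H28RB.Albert
set_option autoImplicit false

/-! A Rota-Baxter operator of weight zero on the Albert algebra whose fourth power is not zero. -/

namespace Pool.Agent.H28RB
open Pool.Agent.R696.RB
open Oct

variable {F : Type*} [Field F]

/-- diagonal octonions -/
def dg (x y : F) : Oct F := ⟨x, 0, 0, 0, 0, 0, 0, y⟩

theorem mk3_congr {d1 d2 d3 e1 e2 e3 : F} {p q r p' q' r' : Oct F} (h1 : d1 = e1) (h2 : d2 = e2)
    (h3 : d3 = e3) (h4 : p = p') (h5 : q = q') (h6 : r = r') :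
    mk3 d1 d2 d3 p q r = mk3 e1 e2 e3 p' q' r' := by
  subst h1 h2 h3 h4 h5 h6; rfl

/-- the operator, coming from the `3 × 3` matrices: `e31 ↦ e21 ↦ e11 ↦ -(e12 + e23)`, `e32 ↦ e11 + e22`,
`e22 ↦ -e23`, `e12 ↦ -e13`, all other matrix units and the complement of the matrices going to zero -/
def R0 : Albert F →ₗ[F] Albert F where
  toFun M := mk3 ((M.mat 0 1).b + (M.mat 1 2).b) (M.mat 1 2).b 0
    (dg (-(M.mat 0 0).a - (M.mat 1 1).a) 0) (dg 0 (-(M.mat 0 1).a)) (dg (-(M.mat 0 0).a) (M.mat 2 0).a)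
  map_add' M N := by
    show mk3 ((M.mat 0 1 + N.mat 0 1).b + (M.mat 1 2 + N.mat 1 2).b) (M.mat 1 2 + N.mat 1 2).b 0
      (dg (-(M.mat 0 0 + N.mat 0 0).a - (M.mat 1 1 + N.mat 1 1).a) 0) (dg 0 (-(M.mat 0 1 + N.mat 0 1).a))
      (dg (-(M.mat 0 0 + N.mat 0 0).a) (M.mat 2 0 + N.mat 2 0).a) = _
    rw [mk3_add]
    refine mk3_congr ?_ ?_ ?_ ?_ ?_ ?_
    · simp only [Oct.add_def]; (first | ring1 | (field_simp [nz2, nz3, nz4, nz6, nz8, nz9, nz12]; ring1) | (field_simp [nz2, nz3, nz4, nz6, nz8, nz9, nz12]; done))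
    · simp only [Oct.add_def]
    · rw [add_zero]
    all_goals
      simp only [Oct.add_def, dg, Oct.mk.injEq, add_zero, true_and, and_true]
      try constructor
      all_goals (first | ring1 | (field_simp [nz2, nz3, nz4, nz6, nz8, nz9, nz12]; ring1) | (field_simp [nz2, nz3, nz4, nz6, nz8, nz9, nz12]; done))
  map_smul' c M := by
    show mk3 ((c • M.mat 0 1).b + (c • M.mat 1 2).b) (c • M.mat 1 2).b 0
      (dg (-(c • M.mat 0 0).a - (c • M.mat 1 1).a) 0) (dg 0 (-(c • M.mat 0 1).a))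
      (dg (-(c • M.mat 0 0).a) (c • M.mat 2 0).a) = _
    rw [RingHom.id_apply, mk3_smul]
    refine mk3_congr ?_ ?_ ?_ ?_ ?_ ?_
    · simp only [Oct.smul_def]; (first | ring1 | (field_simp [nz2, nz3, nz4, nz6, nz8, nz9, nz12]; ring1) | (field_simp [nz2, nz3, nz4, nz6, nz8, nz9, nz12]; done))
    · simp only [Oct.smul_def]
    · rw [mul_zero]
    all_goals
      simp only [Oct.smul_def, dg, Oct.mk.injEq, mul_zero, true_and, and_true]
      try constructor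
      all_goals (first | ring1 | (field_simp [nz2, nz3, nz4, nz6, nz8, nz9, nz12]; ring1) | (field_simp [nz2, nz3, nz4, nz6, nz8, nz9, nz12]; done))

theorem R0_mk3 (d1 d2 d3 : F) (p q r : Oct F) :
    R0 (mk3 d1 d2 d3 p q r) = mk3 (r.b + p.b) p.b 0 (dg (-d1 - d2) 0) (dg 0 (-r.a)) (dg (-d1) q.a) := rfl

theorem R0_rb [Good F] (x y : Albert F) : R0 x * R0 y = R0 (R0 x * y + x * R0 y) := by
  obtain ⟨d1, d2, d3, p, q, r, rfl⟩ := mk3_surj x
  obtain ⟨e1, e2, e3, p', q', r', rfl⟩ := mk3_surj y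
  simp only [R0_mk3, mk3_mul, mk3_add]
  congr 1
  all_goals
    simp only [bl, dg, conj_def, Oct.mul_def, Oct.add_def, Oct.smul_def, Oct.mk.injEq]
  · (first | ring1 | (field_simp [nz2, nz3, nz4, nz6, nz8, nz9, nz12]; ring1) | (field_simp [nz2, nz3, nz4, nz6, nz8, nz9, nz12]; done))
  · (first | ring1 | (field_simp [nz2, nz3, nz4, nz6, nz8, nz9, nz12]; ring1) | (field_simp [nz2, nz3, nz4, nz6, nz8, nz9, nz12]; done))
  · (first | ring1 | (field_simp [nz2, nz3, nz4, nz6, nz8, nz9, nz12]; ring1) | (field_simp [nz2, nz3, nz4, nz6, nz8, nz9, nz12]; done))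
  · refine ⟨?_, ?_, ?_, ?_, ?_, ?_, ?_, ?_⟩ <;> (first | ring1 | (field_simp [nz2, nz3, nz4, nz6, nz8, nz9, nz12]; ring1) | (field_simp [nz2, nz3, nz4, nz6, nz8, nz9, nz12]; done))
  · refine ⟨?_, ?_, ?_, ?_, ?_, ?_, ?_, ?_⟩ <;> (first | ring1 | (field_simp [nz2, nz3, nz4, nz6, nz8, nz9, nz12]; ring1) | (field_simp [nz2, nz3, nz4, nz6, nz8, nz9, nz12]; done))
  · refine ⟨?_, ?_, ?_, ?_, ?_, ?_, ?_, ?_⟩ <;> (first | ring1 | (field_simp [nz2, nz3, nz4, nz6, nz8, nz9, nz12]; ring1) | (field_simp [nz2, nz3, nz4, nz6, nz8, nz9, nz12]; done))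

theorem R0_four : (R0 : Albert F →ₗ[F] Albert F) (R0 (R0 (R0 (mk3 0 0 0 0 (dg 1 0) 0)))) ≠ 0 := by
  intro h
  have h1 := congrArg (fun M : Albert F => (M.mat 2 0).b) h
  simp only [R0_mk3] at h1
  have h2 : (((0 : Albert F).mat 2 0)).b = 0 := rfl
  rw [h2, mk3_mat] at h1
  simp [dg, Oct.zero_def] at h1

end Pool.Agent.H28RB
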