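import Pool.Agent.H28RB.Main
set_option autoImplicit false

/-! Algebras whose symmetrisation has degree three, and the matrix algebra of degree three. The product of an
algebra is given as a function. -/

namespace Pool.Agent.H28RB

section
variable {F : Type*} [Field F] {A : Type*} [AddCommGroup A] [Module F A]

/-- The symmetrised product `(x y + y x) / 2` of the product `m`. -/
def jp (F : Type*) [Field F] {A : Type*} [AddCommGroup A] [Module F A] (m : A → A → A) (x y : A) : A :=
  (1 / 2 : F) • (m x y + m y x)

/-- the quadratic trace `(T(a)² - T(a²)) / 2` -/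
def qt (m : A → A → A) (T : A →ₗ[F] F) (a : A) : F := (T a ^ 2 - T (jp F m a a)) / 2

/-- the trace part `T(a² x) - T(a) T(a x) + S(a) T(x)` -/
def nt (m : A → A → A) (T : A →ₗ[F] F) (a x : A) : F :=
  T (jp F m (jp F m a a) x) - T a * T (jp F m a x) + qt m T a * T x

/-- the right-hand side of the linearised generic equation of degree three -/
def gen (m : A → A → A) (e : A) (T : A →ₗ[F] F) (a x : A) : A :=
  T x • jp F m a a + (2 * T a) • jp F m a x - (T a * T x - T (jp F m a x)) • a
      - qt m T a • x + nt m T a x • e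

/-- The product `m` is bilinear with unit `e` (it need not be commutative or associative) and the symmetrised
product `jp F m` satisfies the linearised generic equation of degree three with the trace form `T`. -/
structure DegreeThree (m : A → A → A) (e : A) (T : A →ₗ[F] F) : Prop where
  add_left : ∀ x y z, m (x + y) z = m x z + m y z
  add_right : ∀ x y z, m x (y + z) = m x y + m x z
  smul_left : ∀ (c : F) (x y : A), m (c • x) y = c • m x y
  smul_right : ∀ (c : F) (x y : A), m x (c • y) = c • m x y
  one_left : ∀ x, m e x = x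
  one_right : ∀ x, m x e = x
  tone : T e = 3
  cubic : ∀ a x, jp F m (jp F m a a) x + (2 : F) • jp F m a (jp F m a x) = gen m e T a x

/-- Rota–Baxter operators of weight zero for the product `m` -/
def IsRotaBaxter (m : A → A → A) (R : A →ₗ[F] A) : Prop :=
  ∀ x y : A, m (R x) (R y) = R (m (R x) y + m x (R y))

variable {m : A → A → A} {e : A} {T : A →ₗ[F] F}

theorem jp_comm (x y : A) : jp F m x y = jp F m y x := by
  simp only [jp]; rw [add_comm]

theorem jp_add (h : DegreeThree m e T) (x y z : A) : jp F m x (y + z) = jp F m x y + jp F m x z := by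
  simp only [jp, h.add_left, h.add_right]; rw [← smul_add]; congr 1; abel

theorem jp_smul (h : DegreeThree m e T) (c : F) (x y : A) : jp F m x (c • y) = c • jp F m x y := by
  simp only [jp, h.smul_left, h.smul_right]; rw [← smul_add, smul_comm]

theorem jp_zero (h : DegreeThree m e T) (x : A) : jp F m x 0 = 0 := by
  have := jp_smul h 0 x 0
  simpa using this

theorem jp_one [Good F] (h : DegreeThree m e T) (x : A) : jp F m e x = x := by
  rw [jp, h.one_left, h.one_right, ← two_smul F, smul_smul, one_div, inv_mul_cancel₀ nz2, one_smul]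

theorem jp_rb {R : A →ₗ[F] A} (hR : IsRotaBaxter m R) (x y : A) :
    jp F m (R x) (R y) = R (jp F m (R x) y + jp F m x (R y)) := by
  have h1 := hR x y
  have h2 := hR y x
  simp only [jp]
  rw [h1, h2, ← map_add, ← map_smul, ← smul_add]
  congr 2
  abel

/-- the ring structure given by the symmetrised product -/
@[reducible] def mkRing (h : DegreeThree m e T) : NonUnitalNonAssocRing A :=
  { (inferInstance : AddCommGroup A) with
    mul := jp F m
    left_distrib := jp_add h
    right_distrib := fun x y z => by
      show jp F m (x + y) z = jp F m x z + jp F m y z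
      rw [jp_comm, jp_add h, jp_comm z, jp_comm z]
    zero_mul := fun x => by
      show jp F m 0 x = 0
      rw [jp_comm, jp_zero h]
    mul_zero := jp_zero h }

theorem mk_tower (h : DegreeThree m e T) : letI := mkRing h; IsScalarTower F A A := by
  letI := mkRing h
  refine ⟨fun r x y => ?_⟩
  show jp F m (r • x) y = r • jp F m x y
  rw [jp_comm, jp_smul h, jp_comm]

theorem mk_comm (h : DegreeThree m e T) : letI := mkRing h; SMulCommClass F A A := by
  letI := mkRing h
  refine ⟨fun r x y => ?_⟩
  show r • jp F m x y = jp F m x (r • y)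
  rw [jp_smul h]

/-- **The fifth power of a Rota-Baxter operator of weight zero vanishes on algebras of degree three.** -/
theorem DegreeThree.pow_five [Good F] (h : DegreeThree m e T) {R : A →ₗ[F] A} (hR : IsRotaBaxter m R) :
    R ^ 5 = 0 := by
  have ht := mk_tower h
  have hs := mk_comm h
  have hD : @Deg3 F _ A (mkRing h) _ e T :=
    @Deg3.mk F _ A (mkRing h) _ e T jp_comm (jp_one h) h.tone h.cubic
  have hR' : @IsRB F _ A (mkRing h) _ R := jp_rb hR
  apply LinearMap.ext
  intro x
  have h0 : R (R (R (R (R x)))) = 0 := @IsRB.pow_five F _ _ A (mkRing h) _ ht hs e T R hD hR' x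
  simpa [pow_succ] using h0

end

section matrix
variable {F : Type*} [Field F]

/-- The linearised Cayley-Hamilton identity of `3 × 3` matrices. -/
theorem mat_lin [Good F] (a x : Matrix (Fin 3) (Fin 3) F) :
    a * a * x + a * x * a + x * (a * a) =
      x.trace • (a * a) + a.trace • (a * x + x * a) - (a.trace * x.trace - (a * x).trace) • a
      - ((a.trace ^ 2 - (a * a).trace) / 2) • x
      + ((a * a * x).trace - a.trace * (a * x).trace
        + ((a.trace ^ 2 - (a * a).trace) / 2) * x.trace) • (1 : Matrix (Fin 3) (Fin 3) F) := by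
  ext i j
  fin_cases i <;> fin_cases j <;>
  · simp [Matrix.mul_apply, Fin.sum_univ_three, Matrix.trace]
    (first | ring1 | (field_simp [nz2, nz3, nz4, nz6, nz8, nz9, nz12]; ring1) | (field_simp [nz2, nz3, nz4, nz6, nz8, nz9, nz12]; done))

theorem mat_deg [Good F] :
    DegreeThree (fun x y : Matrix (Fin 3) (Fin 3) F => x * y) 1 (Matrix.traceLinearMap (Fin 3) F F) where
  add_left := add_mul
  add_right := mul_add
  smul_left := smul_mul_assoc
  smul_right := fun c x y => mul_smul_comm c x y
  one_left x := one_mul x
  one_right x := mul_one x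
  tone := by simp
  cubic a x := by
    have h := mat_lin a x
    set m : Matrix (Fin 3) (Fin 3) F → Matrix (Fin 3) (Fin 3) F → Matrix (Fin 3) (Fin 3) F :=
      fun x y => x * y with hm
    have e1 : jp F m a a = a * a := by
      rw [jp, hm, ← two_smul F (a * a), smul_smul, one_div, inv_mul_cancel₀ nz2, one_smul]
    have e2 : jp F m (a * a) x + (2 : F) • jp F m a (jp F m a x)
        = a * a * x + a * x * a + x * (a * a) := by
      simp only [jp, hm, mul_smul_comm, smul_mul_assoc, mul_add, add_mul, ← mul_assoc]
      (match_scalars <;> (first | ring1 | (field_simp [nz2, nz3, nz4, nz6, nz8, nz9, nz12]; ring1) | (field_simp [nz2, nz3, nz4, nz6, nz8, nz9, nz12]; done)))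
    have e3 : (2 : F) • jp F m a x = a * x + x * a := by
      rw [jp, hm, smul_smul, one_div, mul_inv_cancel₀ nz2, one_smul]
    have e4 : (jp F m a x).trace = (a * x).trace := by
      rw [jp, hm, Matrix.trace_smul, Matrix.trace_add, Matrix.trace_mul_comm x a, smul_eq_mul]
      (first | ring1 | (field_simp [nz2, nz3, nz4, nz6, nz8, nz9, nz12]; ring1) | (field_simp [nz2, nz3, nz4, nz6, nz8, nz9, nz12]; done))
    have e5 : (jp F m (a * a) x).trace = (a * a * x).trace := by
      rw [jp, hm, Matrix.trace_smul, Matrix.trace_add, Matrix.trace_mul_comm x (a * a), smul_eq_mul]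
      (first | ring1 | (field_simp [nz2, nz3, nz4, nz6, nz8, nz9, nz12]; ring1) | (field_simp [nz2, nz3, nz4, nz6, nz8, nz9, nz12]; done))
    simp only [gen, nt, qt, Matrix.traceLinearMap_apply]
    rw [e1, e2, h, e4, e5, ← e3]
    (match_scalars <;> (first | ring1 | (field_simp [nz2, nz3, nz4, nz6, nz8, nz9, nz12]; ring1) | (field_simp [nz2, nz3, nz4, nz6, nz8, nz9, nz12]; done)))

/-- the operator `e31 ↦ e21 ↦ e11 ↦ -(e12 + e23)`, `e32 ↦ e11 + e22`, `e22 ↦ -e23`, `e12 ↦ -e13` -/
def R1 : Matrix (Fin 3) (Fin 3) F →ₗ[F] Matrix (Fin 3) (Fin 3) F where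
  toFun X := !![X 1 0 + X 2 1, -X 0 0, -X 0 1; X 2 0, X 2 1, -X 0 0 - X 1 1; 0, 0, 0]
  map_add' X Y := by
    ext i j
    fin_cases i <;> fin_cases j <;> simp <;> ring
  map_smul' c X := by
    ext i j
    fin_cases i <;> fin_cases j <;> simp <;> ring

theorem R1_rb (x y : Matrix (Fin 3) (Fin 3) F) : R1 x * R1 y = R1 (R1 x * y + x * R1 y) := by
  ext i j
  fin_cases i <;> fin_cases j <;>
  · simp [R1, Matrix.mul_apply, Fin.sum_univ_three, -Matrix.cons_mul]
    try ring

theorem R1_four : (R1 : Matrix (Fin 3) (Fin 3) F →ₗ[F] Matrix (Fin 3) (Fin 3) F)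
    (R1 (R1 (R1 !![0, 0, 0; 0, 0, 0; 1, 0, 0]))) ≠ 0 := by
  intro h
  have h1 := congrFun (congrFun h 0) 2
  simp [R1] at h1

end matrix

end Pool.Agent.H28RB
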